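import Mathlib
import Pool.Agent.H.MP_c7d842_co.Code

set_option autoImplicit false

namespace Pool.Agent.Results.MP_c7d842_co.Bch
open Finset Pool.Agent.H.MP_c7d842_co
open scoped Pointwise

/-- the real point with the given integer coordinates -/
def pt {ι : Type} (z : ι → ℤ) : ι → ℝ := fun i => (z i : ℝ)

/-- the lattice polytope spanned by a finite set of lattice points -/
def poly {ι : Type} (S : Finset (ι → ℤ)) : Set (ι → ℝ) := convexHull ℝ (pt '' (S : Set (ι → ℤ)))

/-- degree `s` : `s = d + 1 - min {k ≥ 1 : kP has an interior lattice point}` -/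
def HasDegree {d : ℕ} (S : Finset (Fin d → ℤ)) (s : ℕ) : Prop :=
  ∃ c : ℕ, IsLeast {k : ℕ | 1 ≤ k ∧ ∃ z : Fin d → ℤ, pt z ∈ interior ((k : ℝ) • poly S)} c ∧
    s + c = d + 1

/-- the Cayley polytope of `k + 1` lattice polytopes -/
def cayley {m k : ℕ} (Q : Fin (k + 1) → Finset (Fin m → ℤ)) : Set (Fin m ⊕ Fin k → ℝ) :=
  convexHull ℝ (⋃ i : Fin (k + 1),
    (fun x => Sum.elim x (fun j : Fin k => if i = j.succ then (1 : ℝ) else 0)) '' poly (Q i))

/-- lattice equivalent to a Cayley polytope of `n` lattice polytopes -/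
def IsCayley {d : ℕ} (S : Finset (Fin d → ℤ)) (n : ℕ) : Prop :=
  ∃ (m k : ℕ) (Q : Fin (k + 1) → Finset (Fin m → ℤ)) (M : Matrix (Fin m ⊕ Fin k) (Fin d) ℤ)
    (N : Matrix (Fin d) (Fin m ⊕ Fin k) ℤ) (b : Fin m ⊕ Fin k → ℤ),
    n = k + 1 ∧ (∀ i, (Q i).Nonempty) ∧ M * N = 1 ∧ N * M = 1 ∧
      (fun x => (M.map (fun a : ℤ => (a : ℝ))).mulVec x + pt b) '' poly S = cayley Q

section gen
variable {d : ℕ} (B : Fin d → Fin d → ℤ)

def V : Option (Fin d) → Fin d → ℤ
  | none => fun _ => 0
  | some u => fun t => (if t = u then 1 else 0) + B t u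

noncomputable def lam (x : Fin d → ℝ) (u : Fin d) : ℝ := x u - (∑ i, (B u i : ℝ) * x i) / 2

theorem lam_add (x y : Fin d → ℝ) (u : Fin d) : lam B (x + y) u = lam B x u + lam B y u := by
  simp only [lam, Pi.add_apply, mul_add, sum_add_distrib]; ring

theorem lam_smul (c : ℝ) (x : Fin d → ℝ) (u : Fin d) : lam B (c • x) u = c * lam B x u := by
  have : ∑ i, (B u i : ℝ) * (c * x i) = c * ∑ i, (B u i : ℝ) * x i := by
    rw [mul_sum]; exact sum_congr rfl (fun i _ => by ring)
  simp only [lam, Pi.smul_apply, smul_eq_mul, this]; ring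

theorem lam_cont (u : Fin d) : Continuous (fun x => lam B x u) := by
  unfold lam; fun_prop

variable (hB : ∀ t i, ∑ u, B t u * B u i = B t i)
include hB

theorem hBr (t i : Fin d) : ∑ u, (B t u : ℝ) * B u i = B t i := by exact_mod_cast hB t i

theorem lam_V (w u : Fin d) : lam B (pt (V B (some w))) u = if u = w then 1 else 0 := by
  simp only [lam, pt, V, Int.cast_add, mul_add, sum_add_distrib, hBr B hB]
  simp

theorem recon (x : Fin d → ℝ) (t : Fin d) :
    lam B x t + ∑ u, (B t u : ℝ) * lam B x u = x t := by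
  have h1 : ∑ u, (B t u : ℝ) * ((∑ i, (B u i : ℝ) * x i) / 2) = (∑ i, (B t i : ℝ) * x i) / 2 := by
    have : ∀ u, (B t u : ℝ) * ((∑ i, (B u i : ℝ) * x i) / 2) =
        (∑ i, (B t u : ℝ) * (B u i : ℝ) * x i) / 2 := by
      intro u
      rw [← mul_div_assoc, mul_sum]
      congr 1
      exact sum_congr rfl (fun i _ => by ring)
    simp only [this]
    rw [← sum_div, sum_comm]
    congr 1
    exact sum_congr rfl (fun i _ => by rw [← sum_mul, hBr B hB])
  simp only [lam, mul_sub, sum_sub_distrib, h1]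
  ring

theorem mem_poly (x : Fin d → ℝ) :
    x ∈ poly (univ.image (V B)) ↔ (∀ u, 0 ≤ lam B x u) ∧ ∑ u, lam B x u ≤ 1 := by
  constructor
  · intro hx
    have hc : Convex ℝ {x : Fin d → ℝ | (∀ u, 0 ≤ lam B x u) ∧ ∑ u, lam B x u ≤ 1} := by
      intro x hx y hy a b ha hb hab
      simp only [Set.mem_ofPred_eq, lam_add, lam_smul, sum_add_distrib, ← mul_sum]
      refine ⟨fun u => add_nonneg (mul_nonneg ha (hx.1 u)) (mul_nonneg hb (hy.1 u)), ?_⟩
      nlinarith [hx.2, hy.2]
    refine convexHull_min ?_ hc hx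
    rintro _ ⟨z, hz, rfl⟩
    obtain ⟨v, _, rfl⟩ := mem_image.1 (mem_coe.1 hz)
    cases v with
    | none => simp [lam, pt, V]
    | some w =>
      simp only [Set.mem_ofPred_eq, lam_V B hB]
      refine ⟨fun u => by split_ifs <;> norm_num, by simp⟩
  · rintro ⟨h1, h2⟩
    let w : Option (Fin d) → ℝ := fun v => v.elim (1 - ∑ u, lam B x u) (lam B x)
    have e : x = ∑ v, w v • pt (V B v) := by
      funext t
      rw [Finset.sum_apply, Fintype.sum_option]
      simp only [w, Option.elim, pt, V, Pi.smul_apply, smul_eq_mul, Int.cast_add, mul_add,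
        sum_add_distrib]
      simp
      rw [← recon B hB x t]
      congr 1
      exact sum_congr rfl (fun i _ => by ring)
    rw [e]
    apply (convex_convexHull ℝ _).sum_mem
    · intro v _
      cases v with
      | none => simp only [w, Option.elim]; linarith
      | some u => exact h1 u
    · rw [Fintype.sum_option]; simp [w]
    · intro v _
      exact subset_convexHull ℝ _ ⟨V B v, by simp, rfl⟩

theorem mem_smul_poly (k : ℝ) (hk : 0 < k) (x : Fin d → ℝ) :
    x ∈ k • poly (univ.image (V B)) ↔ (∀ u, 0 ≤ lam B x u) ∧ ∑ u, lam B x u ≤ k := by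
  rw [Set.mem_smul_set_iff_inv_smul_mem₀ hk.ne', mem_poly B hB]
  simp only [lam_smul, ← mul_sum]
  have hi : 0 < k⁻¹ := inv_pos.2 hk
  rw [inv_mul_le_iff₀ hk, mul_one]
  simp only [mul_nonneg_iff_of_pos_left hi]

omit hB in
theorem int_move (A : Set (Fin d → ℝ)) (x w : Fin d → ℝ) (h : x ∈ interior A) :
    ∃ e : ℝ, 0 < e ∧ x + e • w ∈ A := by
  have hc : Continuous (fun e : ℝ => x + e • w) := by fun_prop
  have h1 : (fun e : ℝ => x + e • w) ⁻¹' A ∈ nhds (0 : ℝ) := by
    apply hc.continuousAt.preimage_mem_nhds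
    simpa using mem_interior_iff_mem_nhds.1 h
  obtain ⟨e, he, h2⟩ := Metric.mem_nhds_iff.1 h1
  refine ⟨e / 2, by linarith, h2 ?_⟩
  rw [Metric.mem_ball, Real.dist_eq, sub_zero, abs_of_pos (by linarith)]
  linarith

theorem mem_int (u0 : Fin d) (k : ℝ) (hk : 0 < k) (x : Fin d → ℝ) :
    x ∈ interior (k • poly (univ.image (V B))) ↔ (∀ u, 0 < lam B x u) ∧ ∑ u, lam B x u < k := by
  constructor
  · intro h
    constructor
    · intro u
      obtain ⟨e, he, h2⟩ := int_move _ x ((-1 : ℝ) • pt (V B (some u))) h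
      have := ((mem_smul_poly B hB k hk _).1 h2).1 u
      rw [lam_add, lam_smul, lam_smul, lam_V B hB, if_pos rfl] at this
      linarith
    · obtain ⟨e, he, h2⟩ := int_move _ x (pt (V B (some u0))) h
      have := ((mem_smul_poly B hB k hk _).1 h2).2
      simp only [lam_add, lam_smul, lam_V B hB, sum_add_distrib, ← mul_sum] at this
      simp at this
      linarith
  · intro h
    have ho : IsOpen {x : Fin d → ℝ | (∀ u, 0 < lam B x u) ∧ ∑ u, lam B x u < k} := by
      apply IsOpen.inter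
      · have : {x : Fin d → ℝ | ∀ u, 0 < lam B x u} = ⋂ u, {x | 0 < lam B x u} := by
          ext x; simp
        show IsOpen {x : Fin d → ℝ | ∀ u, 0 < lam B x u}
        rw [this]
        exact isOpen_iInter_of_finite (fun u => isOpen_lt continuous_const (lam_cont B u))
      · exact isOpen_lt (continuous_finsetSum _ (fun u _ => lam_cont B u)) continuous_const
    refine interior_maximal ?_ ho h
    intro y hy
    exact (mem_smul_poly B hB k hk y).2 ⟨fun u => (hy.1 u).le, hy.2.le⟩

omit hB in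
/-- a Cayley structure gives `n` disjoint nonempty blocks cut out by integral affine functions -/
theorem blocks (n : ℕ) (h : IsCayley (univ.image (V B)) n) :
    ∃ T : Finset (Option (Fin d)), T.Nonempty ∧ T.card * n ≤ d + 1 ∧ ∃ (c : ℤ) (w : Fin d → ℤ),
      ∀ v, c + ∑ t, w t * V B v t = if v ∈ T then 1 else 0 := by
  obtain ⟨m, k, Q, M, N, b, rfl, hQ, -, -, h⟩ := h
  let be : Fin (k + 1) → (Fin m ⊕ Fin k → ℝ) → ℝ := fun i y =>
    Fin.cases (motive := fun _ => ℝ) (1 - ∑ j, y (Sum.inr j)) (fun j => y (Sum.inr j)) i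
  let c : Fin (k + 1) → ℤ := fun i =>
    Fin.cases (motive := fun _ => ℤ) (1 - ∑ j, b (Sum.inr j)) (fun j => b (Sum.inr j)) i
  let w : Fin (k + 1) → Fin d → ℤ := fun i t =>
    Fin.cases (motive := fun _ => ℤ) (- ∑ j, M (Sum.inr j) t) (fun j => M (Sum.inr j) t) i
  have hbe : ∀ i (x : Fin d → ℝ), be i ((M.map (fun a : ℤ => (a : ℝ))).mulVec x + pt b) =
      c i + ∑ t, (w i t : ℝ) * x t := by
    intro i x
    refine Fin.cases ?_ (fun j => ?_) i
    · simp only [be, c, w, Fin.cases_zero, Pi.add_apply, Matrix.mulVec, dotProduct, Matrix.map_apply,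
        pt, sum_add_distrib]
      push_cast
      rw [sum_comm]
      simp only [neg_mul, sum_neg_distrib, sum_mul]
      ring
    · simp only [be, c, w, Fin.cases_succ, Pi.add_apply, Matrix.mulVec, dotProduct,
        Matrix.map_apply, pt]
      ring
  have hcv : ∀ i (x y : Fin m ⊕ Fin k → ℝ) (a a' : ℝ), a + a' = 1 →
      be i (a • x + a' • y) = a * be i x + a' * be i y := by
    intro i x y a a' ha
    refine Fin.cases ?_ (fun j => ?_) i
    · simp only [be, Fin.cases_zero, Pi.add_apply, Pi.smul_apply, smul_eq_mul, sum_add_distrib,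
        ← mul_sum]
      linear_combination (-1 : ℝ) * ha
    · simp [be]
  have hval : ∀ i i' (x : Fin m → ℝ),
      be i (Sum.elim x (fun j : Fin k => if i' = j.succ then (1 : ℝ) else 0)) =
        if i' = i then 1 else 0 := by
    intro i i' x
    refine Fin.cases ?_ (fun j => ?_) i
    · refine Fin.cases ?_ (fun j => ?_) i'
      · simp [be, (Fin.succ_ne_zero _).symm]
      · simp [be]
    · simp [be]
  have hnn : ∀ i, ∀ y ∈ cayley Q, 0 ≤ be i y := by
    intro i y hy
    have hc : Convex ℝ {y | 0 ≤ be i y} := by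
      intro x hx y hy a a' ha ha' hab
      simp only [Set.mem_ofPred_eq, hcv i x y a a' hab]
      exact add_nonneg (mul_nonneg ha hx) (mul_nonneg ha' hy)
    refine convexHull_min ?_ hc hy
    intro y hy
    obtain ⟨i', x, _, rfl⟩ := Set.mem_iUnion.1 hy
    simp only [Set.mem_ofPred_eq, hval]
    split_ifs <;> norm_num
  let f : Fin (k + 1) → Option (Fin d) → ℤ := fun i v => c i + ∑ t, w i t * V B v t
  have hvm : ∀ v, pt (V B v) ∈ poly (univ.image (V B)) := fun v =>
    subset_convexHull ℝ _ ⟨V B v, by simp, rfl⟩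
  have hf : ∀ i v, (f i v : ℝ) = c i + ∑ t, (w i t : ℝ) * pt (V B v) t := by
    intro i v; simp [f, pt]
  have hf0 : ∀ i v, 0 ≤ f i v := by
    intro i v
    have := hnn i _ (h ▸ Set.mem_image_of_mem _ (hvm v))
    rw [hbe, ← hf] at this
    exact_mod_cast this
  have hf1 : ∀ v, ∑ i, f i v = 1 := by
    intro v
    have : ∑ i, (f i v : ℝ) = 1 := by
      simp only [hf, ← hbe]
      rw [Fin.sum_univ_succ]
      simp [be]
    exact_mod_cast this
  have hle : ∀ i v, f i v ≤ 1 := fun i v =>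
    hf1 v ▸ single_le_sum (f := fun i => f i v) (fun i _ => hf0 i v) (mem_univ i)
  let T : Fin (k + 1) → Finset (Option (Fin d)) := fun i => univ.filter (fun v => f i v = 1)
  have hT : ∀ i v, f i v = if v ∈ T i then 1 else 0 := by
    intro i v
    have := hf0 i v
    have := hle i v
    simp only [T, mem_filter, mem_univ, true_and]
    split_ifs <;> omega
  have hne : ∀ i, (T i).Nonempty := by
    intro i
    by_contra hn
    rw [not_nonempty_iff_eq_empty] at hn
    obtain ⟨q, hq⟩ := hQ i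
    have h1 : Sum.elim (pt q) (fun j : Fin k => if i = j.succ then (1 : ℝ) else 0) ∈ cayley Q :=
      subset_convexHull ℝ _ (Set.mem_iUnion.2 ⟨i, pt q, subset_convexHull ℝ _ ⟨q, hq, rfl⟩, rfl⟩)
    rw [← h] at h1
    obtain ⟨x, hx, e⟩ := h1
    have h2 : (c i : ℝ) + ∑ t, (w i t : ℝ) * x t = 1 := by
      rw [← hbe]
      have := hval i i (pt q)
      rw [if_pos rfl, ← e] at this
      exact this
    have hc : Convex ℝ {x : Fin d → ℝ | (c i : ℝ) + ∑ t, (w i t : ℝ) * x t = 0} := by
      intro x hx y hy a a' _ _ hab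
      have e1 : ∀ t, (w i t : ℝ) * (a * x t + a' * y t) = a * (w i t * x t) + a' * (w i t * y t) :=
        fun t => by ring
      simp only [Set.mem_ofPred_eq, Pi.add_apply, Pi.smul_apply, smul_eq_mul, e1, sum_add_distrib,
        ← mul_sum] at hx hy ⊢
      linear_combination a * hx + a' * hy - (c i : ℝ) * hab
    have h3 : x ∈ {x : Fin d → ℝ | (c i : ℝ) + ∑ t, (w i t : ℝ) * x t = 0} := by
      refine convexHull_min ?_ hc hx
      rintro _ ⟨z, hz, rfl⟩
      obtain ⟨v, _, rfl⟩ := mem_image.1 (mem_coe.1 hz)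
      have := hT i v
      rw [hn, if_neg (notMem_empty v)] at this
      simp only [Set.mem_ofPred_eq, ← hf, this, Int.cast_zero]
    rw [Set.mem_ofPred_eq, h2] at h3
    norm_num at h3
  have hsum : ∑ i, ((T i).card : ℤ) = d + 1 := by
    have : ∀ i, ((T i).card : ℤ) = ∑ v, f i v := by
      intro i
      simp only [hT i]
      simp
    simp only [this]
    rw [sum_comm]
    simp [hf1]
  obtain ⟨i, _, hi⟩ := exists_min_image univ (fun i => (T i).card) univ_nonempty
  refine ⟨T i, hne i, ?_, c i, w i, hT i⟩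
  have h5 : ∑ _j : Fin (k + 1), ((T i).card : ℤ) ≤ ∑ j, ((T j).card : ℤ) :=
    sum_le_sum (fun j _ => by exact_mod_cast hi j (mem_univ j))
  rw [hsum] at h5
  simp at h5
  have : (((T i).card * (k + 1) : ℕ) : ℤ) ≤ ((d + 1 : ℕ) : ℤ) := by push_cast; linarith
  exact_mod_cast this

end gen

def B0 : Fin 126 → Fin 126 → ℤ := fun t u => bt t u

theorem sum14 (f : ℕ → ℤ) (t : ℕ) :
    ∑ u : Fin 126, bt t u * f u = ∑ u ∈ range 14, bt t u * f u := by
  rw [Fin.sum_univ_eq_sum_range (fun u => bt t u * f u) 126]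
  symm
  apply sum_subset (range_subset_range.2 (by norm_num))
  intro u _ hu
  rw [bt_big t u (by simpa using hu), zero_mul]

theorem hB0 : ∀ t i, ∑ u, B0 t u * B0 u i = B0 t i := by
  intro t i
  unfold B0
  rw [sum14 (fun u => bt u i) t]
  by_cases hi : (i : ℕ) < 14
  · rw [sum_eq_single (i : ℕ)]
    · rw [bt_small i hi i hi, if_pos rfl, mul_one]
    · intro u hu hne
      rw [bt_small u (mem_range.1 hu) i hi, if_neg hne, mul_zero]
    · intro h; exact absurd (mem_range.2 hi) h
  · rw [bt_big t i (by omega)]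
    exact sum_eq_zero (fun u _ => by rw [bt_big u i (by omega), mul_zero])

theorem lam_pt (z : ℕ → ℤ) (u : Fin 126) : lam B0 (pt (fun t : Fin 126 => z t)) u =
    ((2 * z u - ∑ i ∈ range 14, bt u i * z i : ℤ) : ℝ) / 2 := by
  rw [← sum14 z u]
  simp only [lam, pt, B0]
  push_cast
  ring

theorem int91 : pt (fun t : Fin 126 => (zz t : ℤ)) ∈
    interior (((91 : ℕ) : ℝ) • poly (univ.image (V B0))) := by
  rw [mem_int B0 hB0 0 _ (by norm_num)]
  simp only [lam_pt (fun t => (zz t : ℤ))]
  constructor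
  · intro u
    have := zz_pos u u.2
    have h2 : (0 : ℝ) < ((2 * (zz u : ℤ) - ∑ i ∈ range 14, bt u i * (zz i : ℤ) : ℤ) : ℝ) := by
      exact_mod_cast this
    linarith
  · rw [← sum_div, ← Int.cast_sum, Fin.sum_univ_eq_sum_range
      (fun u => 2 * (zz u : ℤ) - ∑ i ∈ range 14, bt u i * (zz i : ℤ)) 126]
    have h2 : ((∑ u ∈ range 126, (2 * (zz u : ℤ) - ∑ i ∈ range 14, bt u i * (zz i : ℤ)) : ℤ) : ℝ)
      < 182 := by exact_mod_cast zz_sum
    push_cast at h2 ⊢
    linarith

theorem low (k : ℕ) (hk : 1 ≤ k) (z : Fin 126 → ℤ)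
    (h : pt z ∈ interior ((k : ℝ) • poly (univ.image (V B0)))) : 91 ≤ k := by
  let y : ℕ → ℤ := fun t => if h : t < 126 then z ⟨t, h⟩ else 0
  have e : z = fun t : Fin 126 => y t := by funext t; simp [y]
  rw [e, mem_int B0 hB0 0 _ (by exact_mod_cast hk)] at h
  simp only [lam_pt y] at h
  obtain ⟨h1, h2⟩ := h
  rw [← sum_div, ← Int.cast_sum, Fin.sum_univ_eq_sum_range
    (fun u => 2 * y u - ∑ i ∈ range 14, bt u i * y i) 126] at h2
  have h3 : ∑ u ∈ range 126, (2 * y u - ∑ i ∈ range 14, bt u i * y i) < 2 * (k : ℤ) := by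
    have : ((∑ u ∈ range 126, (2 * y u - ∑ i ∈ range 14, bt u i * y i) : ℤ) : ℝ) < 2 * (k : ℝ) := by
      linarith
    exact_mod_cast this
  have h4 : ∀ u ∈ range 126, (2 : ℤ) - (if Odd (∑ i ∈ range 14, bt u i * y i) then 1 else 0) ≤
      2 * y u - ∑ i ∈ range 14, bt u i * y i := by
    intro u hu
    have h5 := h1 ⟨u, mem_range.1 hu⟩
    have h6 : (0 : ℤ) < 2 * y u - ∑ i ∈ range 14, bt u i * y i := by
      have : (0 : ℝ) < ((2 * y u - ∑ i ∈ range 14, bt u i * y i : ℤ) : ℝ) := by linarith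
      exact_mod_cast this
    generalize ∑ i ∈ range 14, bt u i * y i = s at h6 ⊢
    split_ifs with ho
    · omega
    · obtain ⟨r, hr⟩ := Int.not_odd_iff_even.1 ho
      omega
  have h7 := sum_le_sum h4
  rw [sum_sub_distrib, sum_boole] at h7
  have h8 := weight y
  generalize ∑ u ∈ range 126, (2 * y u - ∑ i ∈ range 14, bt u i * y i) = r at h3 h7
  simp only [sum_const, card_range] at h7
  norm_num at h7
  omega

def ix : Option (Fin 126) → ℕ := fun v => v.elim 126 (fun u => u)

theorem ix_inj : Function.Injective ix := by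
  rintro (_ | u) (_ | v) h
  · rfl
  · have := v.2; simp [ix] at h; omega
  · have := u.2; simp [ix] at h; omega
  · simp only [ix, Option.elim] at h; rw [Fin.ext h]

theorem nocay (n : ℕ) (hn : 26 ≤ n) : ¬ IsCayley (univ.image (V B0)) n := by
  intro h
  obtain ⟨T, h1, h2, c, w, h3⟩ := blocks B0 n h
  have h4 : T.card ≤ 4 := by nlinarith
  apply dual (T.image ix)
  · intro x hx
    obtain ⟨v, _, rfl⟩ := mem_image.1 hx
    cases v with
    | none => simp [ix]
    | some u => have := u.2; simp [ix]; omega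
  · exact h1.image _
  · exact card_image_le.trans h4
  · intro i
    rw [sum_image (fun a _ b _ e => ix_inj e)]
    by_cases hi : i < 14
    · have e1 : ∑ v ∈ T, bt (ix v) i = ∑ v, bt (ix v) i * (c + ∑ t, w t * V B0 v t) := by
        simp only [h3, mul_ite, mul_one, mul_zero]
        simp
      let i' : Fin 126 := ⟨i, by omega⟩
      have e2 : ∑ v, bt (ix v) i * (∑ t, w t * V B0 v t) = 2 * ∑ t : Fin 126, w t * bt t i := by
        simp only [mul_sum]
        rw [sum_comm]
        apply sum_congr rfl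
        intro t _
        rw [Fintype.sum_option]
        have e3 := hB0 t i'
        have e4 : ∀ u : Fin 126, bt (ix (some u)) i * (w t * V B0 (some u) t) =
            (if t = u then w t * bt u i else 0) + w t * (B0 t u * B0 u i') := by
          intro u
          simp only [ix, Option.elim, V, B0, i']
          split_ifs <;> ring
        simp only [e4, sum_add_distrib, ← mul_sum, e3]
        simp [V, B0, i']
        ring
      have e5 : ∑ v, bt (ix v) i = ∑ u ∈ range 127, bt u i := by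
        rw [Fintype.sum_option, sum_range_succ, ← Fin.sum_univ_eq_sum_range (fun u => bt u i) 126,
          add_comm]
        rfl
      rw [e1]
      simp only [mul_add, sum_add_distrib, e2, ← sum_mul, e5]
      exact ((Int.even_iff.2 (col_even i hi)).mul_right c).add (even_two_mul _)
    · rw [sum_eq_zero (fun v _ => bt_big _ i (by omega))]
      exact Even.zero

theorem result : ∃ (d s : ℕ) (S : Finset (Fin d → ℤ)), (interior (poly S)).Nonempty ∧
    HasDegree S s ∧ 1 ≤ s ∧ (17 * (s : ℚ) - 4) / 6 < d ∧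
    ∀ n : ℕ, (d : ℤ) + 1 - ⌊(17 * (s : ℚ) - 4) / 6⌋ ≤ n → ¬ IsCayley S n := by
  refine ⟨126, 36, univ.image (V B0), ?_, ⟨91, ⟨⟨by norm_num, _, int91⟩, ?_⟩, rfl⟩, by norm_num,
    by norm_num, ?_⟩
  · have h := int91
    rw [interior_smul₀ (by norm_num)] at h
    obtain ⟨x, hx, _⟩ := h
    exact ⟨x, hx⟩
  · rintro k ⟨hk, z, hz⟩
    exact low k hk z hz
  · intro n hn
    have : ⌊(17 * ((36 : ℕ) : ℚ) - 4) / 6⌋ = 101 := by
      rw [Int.floor_eq_iff]; norm_num
    rw [this] at hn
    exact nocay n (by omega)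

end Pool.Agent.Results.MP_c7d842_co.Bch
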